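import Pool.Agent.Helper26_BSN.Defs2

/-!
# EL0: `Δ₀` relations on the model are sections of extensions of `Δ₀` relations on `ℕ`
-/

namespace Pool.Agent.BSN.H50

open Filter Pool.Agent.BSig Pool.Agent.BSN

/-- Reindexing: the parameters are moved by `σ`. -/
def rho {l l' : ℕ} (k : ℕ) (σ : Fin l → Fin l') : Fin (l + k) → Fin (l' + k) :=
  Fin.addCases (fun a => Fin.castAdd k (σ a)) (fun b => Fin.natAdd l' b)

theorem append_rho {α : Type} {l l' k : ℕ} (σ : Fin l → Fin l') (c : Fin l' → α)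
    (v : Fin k → α) : (fun t => Fin.append c v (rho k σ t)) = Fin.append (fun a => c (σ a)) v := by
  funext t
  refine Fin.addCases ?_ ?_ t
  · intro a; simp only [rho, Fin.addCases_left, Fin.append_left]
  · intro b; simp only [rho, Fin.addCases_right, Fin.append_right]

variable {τ : Tower}

theorem rep_add (x y : (MMt τ)) : ∀ᶠ n in (UU : Filter ℕ), rep (x + y) n = rep x n + rep y n := by
  have h := mk_add (bdd_rep x) (bdd_rep y)
  rw [mk_rep, mk_rep] at h
  rw [h]
  exact rep_mk _ _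

theorem rep_mul (x y : (MMt τ)) : ∀ᶠ n in (UU : Filter ℕ), rep (x * y) n = rep x n * rep y n := by
  have h := mk_mul (bdd_rep x) (bdd_rep y)
  rw [mk_rep, mk_rep] at h
  rw [h]
  exact rep_mk _ _

theorem rep_pow2 (x : (MMt τ)) : ∀ᶠ n in (UU : Filter ℕ), rep (pow2 x) n = 2 ^ rep x n :=
  rep_mk (fun n => 2 ^ rep x n) (bdd_pow2 (bdd_rep x))

theorem eq_iff_rep (x y : (MMt τ)) : x = y ↔ ∀ᶠ n in (UU : Filter ℕ), rep x n = rep y n := by
  conv_lhs => rw [← mk_rep x, ← mk_rep y]
  exact mk_eq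

theorem le_iff_rep (x y : (MMt τ)) : x ≤ y ↔ ∀ᶠ n in (UU : Filter ℕ), rep x n ≤ rep y n := by
  conv_lhs => rw [← mk_rep x, ← mk_rep y]
  exact mk_le

/-- A term on the model is given by a term on `ℕ` with the parameters `c`. -/
def TermRep {k l : ℕ} (F : (Fin k → (MMt τ)) → (MMt τ)) (c : Fin l → (MMt τ)) (f : (Fin (l + k) → ℕ) → ℕ) :
    Prop :=
  IsTerm f ∧ ∀ v, ∀ᶠ n in (UU : Filter ℕ), rep (F v) n = f (fun i => rep (Fin.append c v i) n)

theorem TermRep.move {k l l' : ℕ} {F : (Fin k → (MMt τ)) → (MMt τ)} {c : Fin l → (MMt τ)}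
    {f : (Fin (l + k) → ℕ) → ℕ} (h : TermRep F c f) (σ : Fin l → Fin l') (c' : Fin l' → (MMt τ))
    (hc : (fun a => c' (σ a)) = c) : TermRep F c' (fun u => f (fun t => u (rho k σ t))) := by
  refine ⟨h.1.subst (F := fun t u => u (rho k σ t)) (fun t => IsTerm.var _), fun v => ?_⟩
  filter_upwards [h.2 v] with n hn
  rw [hn]
  have := append_rho σ c' v
  rw [hc] at this
  rw [← this]

theorem append_castAdd {α : Type} {l1 l2 : ℕ} (c1 : Fin l1 → α) (c2 : Fin l2 → α) :
    (fun a => Fin.append c1 c2 (Fin.castAdd l2 a)) = c1 := by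
  funext a; exact Fin.append_left _ _ _

theorem append_natAdd {α : Type} {l1 l2 : ℕ} (c1 : Fin l1 → α) (c2 : Fin l2 → α) :
    (fun a => Fin.append c1 c2 (Fin.natAdd l1 a)) = c2 := by
  funext a; exact Fin.append_right _ _ _

theorem exists_termRep {k : ℕ} {F : (Fin k → (MMt τ)) → (MMt τ)} (h : IsTerm F) :
    ∃ (l : ℕ) (c : Fin l → (MMt τ)) (f : (Fin (l + k) → ℕ) → ℕ), TermRep F c f := by
  induction h with
  | param c0 =>
    refine ⟨1, fun _ => c0, fun u => u (Fin.castAdd k 0), IsTerm.var _, fun v => ?_⟩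
    refine Eventually.of_forall fun n => ?_
    beta_reduce
    rw [Fin.append_left]
  | var i =>
    refine ⟨0, fun a => a.elim0, fun u => u (Fin.natAdd 0 i), IsTerm.var _, fun v => ?_⟩
    refine Eventually.of_forall fun n => ?_
    beta_reduce
    rw [Fin.append_right]
  | @add F1 F2 _ _ ih1 ih2 =>
    obtain ⟨l1, c1, f1, h1⟩ := ih1
    obtain ⟨l2, c2, f2, h2⟩ := ih2
    have h1' := h1.move (Fin.castAdd l2) (Fin.append c1 c2) (append_castAdd c1 c2)
    have h2' := h2.move (Fin.natAdd l1) (Fin.append c1 c2) (append_natAdd c1 c2)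
    refine ⟨l1 + l2, Fin.append c1 c2, _, h1'.1.add h2'.1, fun v => ?_⟩
    filter_upwards [h1'.2 v, h2'.2 v, rep_add (F1 v) (F2 v)] with n a1 a2 a3
    rw [a3, a1, a2]
  | @mul F1 F2 _ _ ih1 ih2 =>
    obtain ⟨l1, c1, f1, h1⟩ := ih1
    obtain ⟨l2, c2, f2, h2⟩ := ih2
    have h1' := h1.move (Fin.castAdd l2) (Fin.append c1 c2) (append_castAdd c1 c2)
    have h2' := h2.move (Fin.natAdd l1) (Fin.append c1 c2) (append_natAdd c1 c2)
    refine ⟨l1 + l2, Fin.append c1 c2, _, h1'.1.mul h2'.1, fun v => ?_⟩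
    filter_upwards [h1'.2 v, h2'.2 v, rep_mul (F1 v) (F2 v)] with n a1 a2 a3
    rw [a3, a1, a2]
  | @pow2 F1 _ ih1 =>
    obtain ⟨l1, c1, f1, h1⟩ := ih1
    refine ⟨l1, c1, fun u => 2 ^ f1 u, h1.1.pow2, fun v => ?_⟩
    filter_upwards [h1.2 v, rep_pow2 (F1 v)] with n a1 a3
    rw [a3, a1]

/-- A relation on the model is given by a relation on `ℕ` with the parameters `c`. -/
def RelRep {k l : ℕ} (P : (Fin k → (MMt τ)) → Prop) (c : Fin l → (MMt τ)) (S : (Fin (l + k) → ℕ) → Prop) :
    Prop := IsDelta0 S ∧ ∀ v, P v ↔ starR S (Fin.append c v)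

theorem RelRep.move {k l l' : ℕ} {P : (Fin k → (MMt τ)) → Prop} {c : Fin l → (MMt τ)}
    {S : (Fin (l + k) → ℕ) → Prop} (h : RelRep P c S) (σ : Fin l → Fin l') (c' : Fin l' → (MMt τ))
    (hc : (fun a => c' (σ a)) = c) : RelRep P c' (fun u => S (fun t => u (rho k σ t))) := by
  refine ⟨h.1.subst (F := fun t u => u (rho k σ t)) (fun t => IsTerm.var _), fun v => ?_⟩
  rw [h.2 v]
  have := append_rho σ c' v
  rw [hc] at this
  rw [← this]
  rfl

/-- Reindexing for bounded quantifiers. -/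
def rhoS (l k : ℕ) : Fin (l + (k + 1)) → Fin (l + k + 1) :=
  Fin.addCases (fun a => (Fin.castAdd k a).succ)
    (fun b => Fin.cases (motive := fun _ => Fin (l + k + 1)) 0 (fun c => (Fin.natAdd l c).succ) b)

theorem cons_rhoS {α : Type} {l k : ℕ} (x : α) (c : Fin l → α) (v : Fin k → α) :
    (fun t => (Fin.cons x (Fin.append c v) : Fin (l + k + 1) → α) (rhoS l k t)) =
      Fin.append c (Fin.cons x v : Fin (k + 1) → α) := by
  funext t
  refine Fin.addCases ?_ ?_ t
  · intro a
    simp only [rhoS, Fin.addCases_left, Fin.append_left, Fin.cons_succ]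
  · intro b
    refine Fin.cases ?_ ?_ b
    · simp only [rhoS, Fin.addCases_right, Fin.append_right, Fin.cases_zero, Fin.cons_zero]
    · intro c'
      simp only [rhoS, Fin.addCases_right, Fin.append_right, Fin.cases_succ, Fin.cons_succ]

theorem exists_relRep {k : ℕ} {P : (Fin k → (MMt τ)) → Prop} (h : IsDelta0 P) :
    ∃ (l : ℕ) (c : Fin l → (MMt τ)) (S : (Fin (l + k) → ℕ) → Prop), RelRep P c S := by
  induction h with
  | @eq k F1 F2 g1 g2 =>
    obtain ⟨l1, c1, f1, h1⟩ := exists_termRep g1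
    obtain ⟨l2, c2, f2, h2⟩ := exists_termRep g2
    have h1' := h1.move (Fin.castAdd l2) (Fin.append c1 c2) (append_castAdd c1 c2)
    have h2' := h2.move (Fin.natAdd l1) (Fin.append c1 c2) (append_natAdd c1 c2)
    refine ⟨l1 + l2, Fin.append c1 c2, _, IsDelta0.eq h1'.1 h2'.1, fun v => ?_⟩
    change F1 v = F2 v ↔ _
    rw [eq_iff_rep]
    refine eventually_congr ?_
    filter_upwards [h1'.2 v, h2'.2 v] with n a1 a2
    rw [a1, a2]
  | @le k F1 F2 g1 g2 =>
    obtain ⟨l1, c1, f1, h1⟩ := exists_termRep g1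
    obtain ⟨l2, c2, f2, h2⟩ := exists_termRep g2
    have h1' := h1.move (Fin.castAdd l2) (Fin.append c1 c2) (append_castAdd c1 c2)
    have h2' := h2.move (Fin.natAdd l1) (Fin.append c1 c2) (append_natAdd c1 c2)
    refine ⟨l1 + l2, Fin.append c1 c2, _, IsDelta0.le h1'.1 h2'.1, fun v => ?_⟩
    change F1 v ≤ F2 v ↔ _
    rw [le_iff_rep]
    refine eventually_congr ?_
    filter_upwards [h1'.2 v, h2'.2 v] with n a1 a2
    rw [a1, a2]
  | @not k P _ ih =>
    obtain ⟨l, c, S, hS, h⟩ := ih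
    refine ⟨l, c, fun u => ¬ S u, hS.not, fun v => ?_⟩
    change ¬ P v ↔ _
    rw [h v]
    exact not_eventually'
  | @and k P Q _ _ ih1 ih2 =>
    obtain ⟨l1, c1, S1, h1⟩ := ih1
    obtain ⟨l2, c2, S2, h2⟩ := ih2
    have h1' := h1.move (Fin.castAdd l2) (Fin.append c1 c2) (append_castAdd c1 c2)
    have h2' := h2.move (Fin.natAdd l1) (Fin.append c1 c2) (append_natAdd c1 c2)
    refine ⟨l1 + l2, Fin.append c1 c2, _, h1'.1.and h2'.1, fun v => ?_⟩
    change (P v ∧ Q v) ↔ _
    rw [h1'.2 v, h2'.2 v]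
    exact eventually_and.symm
  | @ball k F Q hF _ ih =>
    obtain ⟨l1, c1, f1, h1⟩ := exists_termRep hF
    obtain ⟨l2, c2, S2, h2⟩ := ih
    obtain ⟨c, f, S, h1', h2'⟩ : ∃ (c : Fin (l1 + l2) → (MMt τ)) (f : (Fin (l1 + l2 + k) → ℕ) → ℕ)
        (S : (Fin (l1 + l2 + (k + 1)) → ℕ) → Prop), TermRep F c f ∧ RelRep Q c S :=
      ⟨_, _, _, h1.move (Fin.castAdd l2) (Fin.append c1 c2) (append_castAdd c1 c2),
        h2.move (Fin.natAdd l1) (Fin.append c1 c2) (append_natAdd c1 c2)⟩
    refine ⟨l1 + l2, c, fun u => ∀ x, x ≤ f u → S (fun t => (Fin.cons x u :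
      Fin (l1 + l2 + k + 1) → ℕ) (rhoS (l1 + l2) k t)), ?_, fun v => ?_⟩
    · exact IsDelta0.ball h1'.1 (h2'.1.subst (F := fun t w => w (rhoS (l1 + l2) k t))
        (fun t => IsTerm.var _))
    · have key : ∀ x : (MMt τ), Q (Fin.cons x v) ↔ ∀ᶠ n in (UU : Filter ℕ),
          S (fun t => (Fin.cons (rep x n) (fun i => rep (Fin.append c v i) n) :
            Fin (l1 + l2 + k + 1) → ℕ) (rhoS (l1 + l2) k t)) := by
        intro x
        rw [h2'.2]
        refine eventually_congr (Eventually.of_forall fun n => ?_)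
        have e1 := cons_rhoS x c v
        have e2 : (fun i => rep (Fin.append c (Fin.cons x v : Fin (k + 1) → (MMt τ)) i) n) =
            fun t => (Fin.cons (rep x n) (fun i => rep (Fin.append c v i) n) :
              Fin (l1 + l2 + k + 1) → ℕ) (rhoS (l1 + l2) k t) := by
          rw [← e1]
          funext t
          beta_reduce
          generalize rhoS (l1 + l2) k t = s
          refine Fin.cases ?_ ?_ s
          · simp only [Fin.cons_zero]
          · intro s'; simp only [Fin.cons_succ]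
        rw [e2]
      constructor
      · intro H
        change ∀ᶠ n in (UU : Filter ℕ), ∀ x, x ≤ f (fun i => rep (Fin.append c v i) n) → _
        by_contra hc
        rw [not_eventually'] at hc
        classical
        let g : ℕ → ℕ := fun n =>
          if h : ∃ x ≤ f (fun i => rep (Fin.append c v i) n),
            ¬ S (fun t => (Fin.cons x (fun i => rep (Fin.append c v i) n) :
              Fin (l1 + l2 + k + 1) → ℕ) (rhoS (l1 + l2) k t)) then h.choose else 0
        have hg : ∀ᶠ n in (UU : Filter ℕ), g n ≤ f (fun i => rep (Fin.append c v i) n) ∧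
            ¬ S (fun t => (Fin.cons (g n) (fun i => rep (Fin.append c v i) n) :
              Fin (l1 + l2 + k + 1) → ℕ) (rhoS (l1 + l2) k t)) := by
          filter_upwards [hc] with n hn
          push Not at hn
          have h' : ∃ x ≤ f (fun i => rep (Fin.append c v i) n),
            ¬ S (fun t => (Fin.cons x (fun i => rep (Fin.append c v i) n) :
              Fin (l1 + l2 + k + 1) → ℕ) (rhoS (l1 + l2) k t)) := hn
          simp only [g, dif_pos h']
          exact h'.choose_spec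
        have hgb : Bddt τ g := bdd_of_le (bdd_rep (F v)) (by
          filter_upwards [hg, h1'.2 v] with n a1 a2
          rw [a2]; exact a1.1)
        have hle : mk g hgb ≤ F v := by
          rw [le_iff_rep]
          filter_upwards [hg, h1'.2 v, rep_mk g hgb] with n a1 a2 a3
          rw [a3, a2]; exact a1.1
        have h3 := (key (mk g hgb)).1 (H (mk g hgb) hle)
        obtain ⟨n, ⟨hn1, hn2⟩, hn3⟩ := ((h3.and hg).and (rep_mk g hgb)).exists
        rw [hn3] at hn1
        exact hn2.2 hn1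
      · intro H x hx
        rw [key]
        rw [le_iff_rep] at hx
        have H' : ∀ᶠ n in (UU : Filter ℕ), ∀ x, x ≤ f (fun i => rep (Fin.append c v i) n) →
          S (fun t => (Fin.cons x (fun i => rep (Fin.append c v i) n) :
            Fin (l1 + l2 + k + 1) → ℕ) (rhoS (l1 + l2) k t)) := H
        filter_upwards [H', hx, h1'.2 v] with n a1 a2 a3
        exact a1 _ (a2.trans_eq a3)

theorem el0 : Elem0 := by
  intro τ k P hP
  obtain ⟨l, c, S, h1, h2⟩ := exists_relRep hP
  exact ⟨l, c, S, h1, h2⟩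

end Pool.Agent.BSN.H50
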