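import Pool.Agent.Helper26_BSN.Defs2

/-!
# SGC: closure properties of `Σ_j` relations
-/

namespace Pool.Agent.BSN.H50

open Pool.Agent.BSig Pool.Agent.BSN

section

variable {M : Type} [PAExp M]

theorem sig_subst (j : ℕ) : ∀ (k l : ℕ) (P : (Fin k → M) → Prop), IsSigma j P →
    ∀ F : Fin k → (Fin l → M) → M, (∀ i, IsTerm (F i)) →
      IsSigma j (fun v => P (fun i => F i v)) := by
  induction j with
  | zero => intro k l P hP F hF; exact IsDelta0.subst hP hF
  | succ j ih =>
    rintro k l P ⟨i, Q, hQ, h⟩ F hF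
    let G : Fin (i + k) → (Fin (i + l) → M) → M :=
      Fin.addCases (motive := fun _ => (Fin (i + l) → M) → M) (fun a w => w (Fin.castAdd l a))
        (fun b w => F b (fun s => w (Fin.natAdd i s)))
    have hG : ∀ t, IsTerm (G t) := by
      intro t
      refine Fin.addCases ?_ ?_ t
      · intro a
        simp only [G, Fin.addCases_left]
        exact IsTerm.var _
      · intro b
        simp only [G, Fin.addCases_right]
        exact (hF b).subst (F := fun s w => w (Fin.natAdd i s)) (fun s => IsTerm.var _)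
    refine ⟨i, fun w => Q (fun t => G t w), ih _ _ Q hQ G hG, fun v => ?_⟩
    have e : ∀ w : Fin i → M, (fun t => G t (Fin.append w v)) =
        Fin.append w (fun i => F i v) := by
      intro w
      funext t
      refine Fin.addCases ?_ ?_ t
      · intro a
        simp only [G, Fin.addCases_left, Fin.append_left]
      · intro b
        simp only [G, Fin.addCases_right, Fin.append_right]
    simp only [e]
    exact h _

theorem sig_reindex (j : ℕ) {k l : ℕ} {P : (Fin k → M) → Prop} (hP : IsSigma j P)
    (σ : Fin k → Fin l) : IsSigma j (fun v : Fin l → M => P (fun i => v (σ i))) :=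
  sig_subst j k l P hP (fun i v => v (σ i)) (fun i => IsTerm.var _)

theorem sig_succ (j : ℕ) : ∀ (k : ℕ) (P : (Fin k → M) → Prop), IsSigma j P →
    IsSigma (j + 1) P := by
  induction j with
  | zero =>
    intro k P hP
    refine ⟨0, fun u : Fin (0 + k) → M => ¬ P (fun i => u (Fin.natAdd 0 i)), ?_, fun v => ?_⟩
    · exact IsDelta0.not (IsDelta0.subst hP (F := fun i u => u (Fin.natAdd 0 i))
        (fun i => IsTerm.var _))
    · have e : ∀ w : Fin 0 → M, (fun i => Fin.append w v (Fin.natAdd 0 i)) = v := by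
        intro w; funext i; exact Fin.append_right w v i
      simp only [e, not_not]
      exact ⟨fun h => ⟨fun a => a.elim0, h⟩, fun ⟨_, h⟩ => h⟩
  | succ j ih =>
    rintro k P ⟨i, Q, hQ, h⟩
    exact ⟨i, Q, ih _ Q hQ, h⟩

theorem sig_delta0 (j : ℕ) : ∀ (k : ℕ) (P : (Fin k → M) → Prop), IsDelta0 P →
    IsSigma j P := by
  induction j with
  | zero => exact fun _ _ h => h
  | succ j ih => exact fun k P h => sig_succ j k P (ih k P h)

/-- Reindexing of the first block. -/
def bl (i i' k : ℕ) : Fin (i + k) → Fin (i + i' + k) :=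
  Fin.addCases (fun a => Fin.castAdd k (Fin.castAdd i' a)) (fun b => Fin.natAdd (i + i') b)

/-- Reindexing of the second block. -/
def br (i i' k : ℕ) : Fin (i' + k) → Fin (i + i' + k) :=
  Fin.addCases (fun a => Fin.castAdd k (Fin.natAdd i a)) (fun b => Fin.natAdd (i + i') b)

theorem append_bl {α : Type} {i i' k : ℕ} (w : Fin (i + i') → α) (v : Fin k → α) :
    (fun t => Fin.append w v (bl i i' k t)) = Fin.append (fun a => w (Fin.castAdd i' a)) v := by
  funext t
  refine Fin.addCases ?_ ?_ t
  · intro a; simp only [bl, Fin.addCases_left, Fin.append_left]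
  · intro b; simp only [bl, Fin.addCases_right, Fin.append_right]

theorem append_br {α : Type} {i i' k : ℕ} (w : Fin (i + i') → α) (v : Fin k → α) :
    (fun t => Fin.append w v (br i i' k t)) = Fin.append (fun a => w (Fin.natAdd i a)) v := by
  funext t
  refine Fin.addCases ?_ ?_ t
  · intro a; simp only [br, Fin.addCases_left, Fin.append_left]
  · intro b; simp only [br, Fin.addCases_right, Fin.append_right]

theorem sig_and_or (j : ℕ) : ∀ (k : ℕ) (P Q : (Fin k → M) → Prop), IsSigma j P → IsSigma j Q →
    IsSigma j (fun v => P v ∧ Q v) ∧ IsSigma j (fun v => P v ∨ Q v) := by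
  induction j with
  | zero => exact fun k P Q hP hQ => ⟨IsDelta0.and hP hQ, IsDelta0.or hP hQ⟩
  | succ j ih =>
    rintro k P P' ⟨i, Q, hQ, h⟩ ⟨i', Q', hQ', h'⟩
    have h1 : IsSigma j (fun u : Fin (i + i' + k) → M => Q (fun t => u (bl i i' k t))) :=
      sig_reindex j hQ (bl i i' k)
    have h2 : IsSigma j (fun u : Fin (i + i' + k) → M => Q' (fun t => u (br i i' k t))) :=
      sig_reindex j hQ' (br i i' k)
    obtain ⟨h3, h4⟩ := ih _ _ _ h1 h2
    refine ⟨⟨i + i', _, h4, fun v => ?_⟩, ⟨i + i', _, h3, fun v => ?_⟩⟩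
    · simp only [append_bl, append_br]
      rw [h, h']
      constructor
      · rintro ⟨⟨w, hw⟩, w', hw'⟩
        refine ⟨Fin.append w w', ?_⟩
        simp only [Fin.append_left, Fin.append_right]
        rintro (h | h)
        · exact hw h
        · exact hw' h
      · rintro ⟨w, hw⟩
        exact ⟨⟨_, fun h => hw (Or.inl h)⟩, _, fun h => hw (Or.inr h)⟩
    · simp only [append_bl, append_br]
      rw [h, h']
      constructor
      · rintro (⟨w, hw⟩ | ⟨w', hw'⟩)
        · refine ⟨Fin.append w (fun _ => 0), ?_⟩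
          simp only [Fin.append_left]
          exact fun h => hw h.1
        · refine ⟨Fin.append (fun _ => 0) w', ?_⟩
          simp only [Fin.append_right]
          exact fun h => hw' h.2
      · rintro ⟨w, hw⟩
        by_cases hc : Q (Fin.append (fun a => w (Fin.castAdd i' a)) v)
        · exact Or.inr ⟨_, fun h => hw ⟨hc, h⟩⟩
        · exact Or.inl ⟨_, hc⟩

theorem append_cast {α : Type} {i k : ℕ} (W : Fin (i + 1) → α) (v : Fin k → α)
    (e : i + (k + 1) = i + 1 + k) :
    (fun t => Fin.append W v (Fin.cast e t)) =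
      Fin.append (fun a => W a.castSucc) (Fin.cons (W (Fin.last i)) v : Fin (k + 1) → α) := by
  funext t
  refine Fin.addCases ?_ ?_ t
  · intro a
    have : Fin.cast e (Fin.castAdd (k + 1) a) = Fin.castAdd k a.castSucc := by
      ext; simp
    rw [this, Fin.append_left, Fin.append_left]
  · intro b
    refine Fin.cases ?_ ?_ b
    · have : Fin.cast e (Fin.natAdd i (0 : Fin (k + 1))) = Fin.castAdd k (Fin.last i) := by
        ext; simp
      rw [this, Fin.append_left, Fin.append_right, Fin.cons_zero]
    · intro c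
      have : Fin.cast e (Fin.natAdd i c.succ) = Fin.natAdd (i + 1) c := by
        ext; simp; omega
      rw [this, Fin.append_right, Fin.append_right, Fin.cons_succ]

theorem sig_ex (j k : ℕ) (P : (Fin (k + 1) → M) → Prop) (hP : IsSigma (j + 1) P) :
    IsSigma (j + 1) (fun v : Fin k → M => ∃ x, P (Fin.cons x v)) := by
  obtain ⟨i, Q, hQ, h⟩ := hP
  have e : i + (k + 1) = i + 1 + k := by omega
  refine ⟨i + 1, fun u : Fin (i + 1 + k) → M => Q (fun t => u (Fin.cast e t)),
    sig_reindex j hQ (Fin.cast e), fun v => ?_⟩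
  simp only [append_cast]
  constructor
  · rintro ⟨x, hx⟩
    rw [h] at hx
    obtain ⟨w, hw⟩ := hx
    refine ⟨Fin.snoc (α := fun _ => M) w x, ?_⟩
    simp only [Fin.snoc_castSucc, Fin.snoc_last]
    exact hw
  · rintro ⟨w, hw⟩
    exact ⟨w (Fin.last i), (h _).2 ⟨_, hw⟩⟩

end

theorem sgc : SigClosed := by
  intro M _
  exact ⟨sig_subst, sig_succ, sig_delta0, fun j k P Q hP hQ => (sig_and_or j k P Q hP hQ).1,
    fun j k P Q hP hQ => (sig_and_or j k P Q hP hQ).2, sig_ex⟩

end Pool.Agent.BSN.H50
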