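import Pool.Agent.Helper50_BSN.Uw

/-!
# QB1: bounded killers, fixed precision
-/

namespace Pool.Agent.BSN.H50

open Filter Cardinal Pool.Agent.BSig Pool.Agent.BSN

variable {τ : Tower}

theorem contra_delta0 {n : ℕ} {t t' : (Fin n → MMt τ) → MMt τ} (ht : IsTerm t)
    (ht' : IsTerm t') : IsDelta0 (fun v => Contra (t v) (t' v)) := by
  refine IsDelta0.ex ht ?_
  refine IsDelta0.ex ht'.tail ?_
  refine IsDelta0.and (IsDelta0.or ?_ ?_) ?_
  · exact (IsDelta0.eq ht.tail.tail (IsTerm.var 1).twomul).and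
      (IsDelta0.eq ht'.tail.tail ((IsTerm.var 0).twomul.addc 1))
  · exact (IsDelta0.eq ht.tail.tail ((IsTerm.var 1).twomul.addc 1)).and
      (IsDelta0.eq ht'.tail.tail (IsTerm.var 0).twomul)
  · refine IsDelta0.ex (IsTerm.var 1) ?_
    exact (IsDelta0.mem (IsTerm.var 0) (IsTerm.var 2)).and
      (IsDelta0.mem (IsTerm.var 0) (IsTerm.var 1))

theorem uni_delta0 {n : ℕ} {u r r' : (Fin n → MMt τ) → MMt τ} (hu : IsTerm u) (hr : IsTerm r)
    (hr' : IsTerm r') : IsDelta0 (fun v => Uni (u v) (r v) (r' v)) := by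
  refine IsDelta0.all ((hu.add hr).add hr') ?_
  refine IsDelta0.iff (IsDelta0.mem (IsTerm.var 0) hu.tail) ?_
  exact (IsDelta0.mem (IsTerm.var 0) hr.tail).or (IsDelta0.mem (IsTerm.var 0) hr'.tail)

/-- `u` is (the code of) a contradictory pair of level `k`, precision `y`; `h` enumerates its
elements and `a` bounds the witnesses. -/
def QDat (φ : (Fin 5 → (MMt τ)) → Prop) (y k u h a : (MMt τ)) : Prop :=
  (∃ α, α ≤ a ∧ ∃ r, r ≤ a ∧ ∃ r', r' ≤ a ∧ ∃ t, t ≤ a ∧ ∃ t', t' ≤ a ∧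
    (Crd r k ∧ Crd r' k ∧ ¬ Cfl r r ∧ ¬ Cfl r' r' ∧ Frc φ α k y r t ∧ Frc φ α k y r' t' ∧
      Contra t t' ∧ Uni u r r')) ∧
  ((∀ x, x ≤ u → (Mem x u → ∃ j, j < 2 * k ∧ Mem (pr j x) h)) ∧
    ∀ j, j < 2 * k → ∀ x, x ≤ h → ∀ x', x' ≤ h →
      (Mem (pr j x) h → (Mem (pr j x') h → x = x')))

theorem qdat_delta0 {φ : (Fin 5 → MMt τ) → Prop} (hφ : IsDelta0 φ) {n : ℕ} (y : MMt τ)
    {k u h a : (Fin n → MMt τ) → MMt τ} (hk : IsTerm k) (hu : IsTerm u) (hh : IsTerm h)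
    (ha : IsTerm a) : IsDelta0 (fun v => QDat φ y (k v) (u v) (h v) (a v)) := by
  refine IsDelta0.and ?_ (IsDelta0.and ?_ ?_)
  · refine IsDelta0.ex ha ?_
    refine IsDelta0.ex ha.tail ?_
    refine IsDelta0.ex ha.tail.tail ?_
    refine IsDelta0.ex ha.tail.tail.tail ?_
    refine IsDelta0.ex ha.tail.tail.tail.tail ?_
    have hk5 := hk.tail.tail.tail.tail.tail
    refine (IsDelta0.crd (IsTerm.var 3) hk5).and ?_
    refine (IsDelta0.crd (IsTerm.var 2) hk5).and ?_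
    refine (IsDelta0.cfl (IsTerm.var 3) (IsTerm.var 3)).not.and ?_
    refine (IsDelta0.cfl (IsTerm.var 2) (IsTerm.var 2)).not.and ?_
    refine (IsDelta0.frc hφ (IsTerm.var 4) hk5 (IsTerm.param y) (IsTerm.var 3)
      (IsTerm.var 1)).and ?_
    refine (IsDelta0.frc hφ (IsTerm.var 4) hk5 (IsTerm.param y) (IsTerm.var 2)
      (IsTerm.var 0)).and ?_
    exact (contra_delta0 (IsTerm.var 1) (IsTerm.var 0)).and
      (uni_delta0 hu.tail.tail.tail.tail.tail (IsTerm.var 3) (IsTerm.var 2))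
  · refine IsDelta0.all hu ?_
    refine (IsDelta0.mem (IsTerm.var 0) hu.tail).imp ?_
    refine IsDelta0.exLt hk.tail.twomul ?_
    exact IsDelta0.mem (IsTerm.pr (IsTerm.var 0) (IsTerm.var 1)) hh.tail.tail
  · refine IsDelta0.allLt hk.twomul ?_
    refine IsDelta0.all hh.tail ?_
    refine IsDelta0.all hh.tail.tail ?_
    refine (IsDelta0.mem (IsTerm.pr (IsTerm.var 2) (IsTerm.var 1)) hh.tail.tail.tail).imp ?_
    refine (IsDelta0.mem (IsTerm.pr (IsTerm.var 2) (IsTerm.var 0)) hh.tail.tail.tail).imp ?_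
    exact IsDelta0.eq (IsTerm.var 1) (IsTerm.var 0)

/-- `z` is the literal chosen at stage `i` of the run `W`. -/
def Lam (E' W i z : (MMt τ)) : Prop := ∃ b, b ≤ W ∧ ∃ u, u ≤ W ∧ ∃ h, h ≤ W ∧ ∃ a, a ≤ W ∧
  ∃ j, j ≤ E' ∧ (Mem (pr i b) W ∧ b = pr u (pr h a) ∧ Mem (pr i j) E' ∧ Mem (pr j z) h)

theorem lam_delta0 {n : ℕ} (E' : MMt τ) {W i z : (Fin n → MMt τ) → MMt τ} (hW : IsTerm W)
    (hi : IsTerm i) (hz : IsTerm z) : IsDelta0 (fun v => Lam E' (W v) (i v) (z v)) := by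
  refine IsDelta0.ex hW ?_
  refine IsDelta0.ex hW.tail ?_
  refine IsDelta0.ex hW.tail.tail ?_
  refine IsDelta0.ex hW.tail.tail.tail ?_
  refine IsDelta0.ex (IsTerm.param E') ?_
  -- 0 = j, 1 = a, 2 = h, 3 = u, 4 = b
  refine (IsDelta0.mem (IsTerm.pr hi.tail.tail.tail.tail.tail (IsTerm.var 4))
    hW.tail.tail.tail.tail.tail).and ?_
  refine (IsDelta0.eq (IsTerm.var 4) (IsTerm.pr (IsTerm.var 3)
    (IsTerm.pr (IsTerm.var 2) (IsTerm.var 1)))).and ?_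
  refine (IsDelta0.mem (IsTerm.pr hi.tail.tail.tail.tail.tail (IsTerm.var 0))
    (IsTerm.param E')).and ?_
  exact IsDelta0.mem (IsTerm.pr (IsTerm.var 0) hz.tail.tail.tail.tail.tail) (IsTerm.var 2)

/-- `b` is a candidate at stage `i` of the run `W`. -/
def Cnd (φ : (Fin 5 → (MMt τ)) → Prop) (y E E' W i b : (MMt τ)) : Prop :=
  ∃ k, k ≤ E ∧ ∃ u, u ≤ b ∧ ∃ h, h ≤ b ∧ ∃ a, a ≤ b ∧
    (Mem (pr i k) E ∧ b = pr u (pr h a) ∧ QDat φ y k u h a ∧
      ∀ i', i' < i → ∀ z, z ≤ u → (Lam E' W i' z → ¬ Mem z u))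

theorem cnd_delta0 {φ : (Fin 5 → MMt τ) → Prop} (hφ : IsDelta0 φ) {n : ℕ} (y E E' : MMt τ)
    {W i b : (Fin n → MMt τ) → MMt τ} (hW : IsTerm W) (hi : IsTerm i) (hb : IsTerm b) :
    IsDelta0 (fun v => Cnd φ y E E' (W v) (i v) (b v)) := by
  refine IsDelta0.ex (IsTerm.param E) ?_
  refine IsDelta0.ex hb.tail ?_
  refine IsDelta0.ex hb.tail.tail ?_
  refine IsDelta0.ex hb.tail.tail.tail ?_
  -- 0 = a, 1 = h, 2 = u, 3 = k
  refine (IsDelta0.mem (IsTerm.pr hi.tail.tail.tail.tail (IsTerm.var 3)) (IsTerm.param E)).and ?_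
  refine (IsDelta0.eq hb.tail.tail.tail.tail (IsTerm.pr (IsTerm.var 2)
    (IsTerm.pr (IsTerm.var 1) (IsTerm.var 0)))).and ?_
  refine (qdat_delta0 hφ y (IsTerm.var 3) (IsTerm.var 2) (IsTerm.var 1) (IsTerm.var 0)).and ?_
  refine IsDelta0.allLt hi.tail.tail.tail.tail ?_
  refine IsDelta0.all (IsTerm.var 3) ?_
  refine (lam_delta0 E' hW.tail.tail.tail.tail.tail.tail (IsTerm.var 1) (IsTerm.var 0)).imp ?_
  exact (IsDelta0.mem (IsTerm.var 0) (IsTerm.var 4)).not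

/-- `W` is a run of length `n`. -/
def QRun (φ : (Fin 5 → (MMt τ)) → Prop) (y E E' n W : (MMt τ)) : Prop :=
  ∀ i, i < n → ((∃ b, b ≤ W ∧ Mem (pr i b) W) ∧ ∀ b, b ≤ W → (Mem (pr i b) W →
    (Cnd φ y E E' W i b ∧ ∀ b', b' < b → ¬ Cnd φ y E E' W i b')))

theorem qrun_delta0 {φ : (Fin 5 → MMt τ) → Prop} (hφ : IsDelta0 φ) {m : ℕ} (y E E' : MMt τ)
    {n W : (Fin m → MMt τ) → MMt τ} (hn : IsTerm n) (hW : IsTerm W) :
    IsDelta0 (fun v => QRun φ y E E' (n v) (W v)) := by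
  refine IsDelta0.allLt hn ?_
  refine IsDelta0.and ?_ ?_
  · refine IsDelta0.ex hW.tail ?_
    exact IsDelta0.mem (IsTerm.pr (IsTerm.var 1) (IsTerm.var 0)) hW.tail.tail
  · refine IsDelta0.all hW.tail ?_
    refine (IsDelta0.mem (IsTerm.pr (IsTerm.var 1) (IsTerm.var 0)) hW.tail.tail).imp ?_
    refine (cnd_delta0 hφ y E E' hW.tail.tail (IsTerm.var 1) (IsTerm.var 0)).and ?_
    refine IsDelta0.allLt (IsTerm.var 0) ?_
    exact (cnd_delta0 hφ y E E' hW.tail.tail.tail (IsTerm.var 2) (IsTerm.var 0)).not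

/-- Candidates, external version. -/
def PP (φ : (Fin 5 → (MMt τ)) → Prop) (y : (MMt τ)) (k : ℕ) (L : Set ((MMt τ) × Bool)) (b : (MMt τ)) : Prop :=
  ∃ u h a, b = pr u (pr h a) ∧ QDat φ y k u h a ∧ ∀ p ∈ L, ¬ Mem (lit p) u

/-- The data of an infinite run of the process. -/
structure IsProc (φ : (Fin 5 → (MMt τ)) → Prop) (y : (MMt τ)) (k j : ℕ → ℕ) (u h a : ℕ → (MMt τ))
    (p : ℕ → (MMt τ) × Bool) : Prop where
  dat : ∀ i, QDat φ y (k i) (u i) (h i) (a i)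
  avoid : ∀ i i', i' < i → ¬ Mem (lit (p i')) (u i)
  least : ∀ i b, PP φ y (k i) {q | ∃ i', i' < i ∧ q = p i'} b →
    pr (u i) (pr (h i) (a i)) ≤ b
  lt : ∀ i, j i < 2 * k i
  mem : ∀ i, Mem (pr ((j i : ℕ) : (MMt τ)) (lit (p i))) (h i)

section Proc

variable {φ : (Fin 5 → MMt τ) → Prop} {y : MMt τ} {k j : ℕ → ℕ} {u h a : ℕ → MMt τ}
  {p : ℕ → MMt τ × Bool} {E E' : MMt τ}

theorem natCast_two_mul (n : ℕ) : ((2 * n : ℕ) : (MMt τ)) = 2 * (n : (MMt τ)) := by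
  rw [Nat.cast_mul]; rfl

theorem lam_iff (hP : IsProc φ y k j u h a p)
    (hE' : ∀ (i : ℕ) (z : MMt τ), Mem (pr (i : MMt τ) z) E' ↔ z = j i) {W : (MMt τ)} {i : ℕ}
    (hW : ∀ b : (MMt τ), Mem (pr (i : (MMt τ)) b) W ↔ b = pr (u i) (pr (h i) (a i))) (z : (MMt τ)) :
    Lam E' W (i : (MMt τ)) z ↔ z = lit (p i) := by
  constructor
  · rintro ⟨b, _, u', _, h', _, a', _, j', _, h1, h2, h3, h4⟩
    rw [hW] at h1
    rw [h1] at h2
    obtain ⟨rfl, h5⟩ := pr_inj.1 h2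
    obtain ⟨rfl, rfl⟩ := pr_inj.1 h5
    rw [hE'] at h3
    rw [h3] at h4
    refine (hP.dat i).2.2 ((j i : ℕ) : (MMt τ)) ?_ z ?_ (lit (p i)) ?_ h4 (hP.mem i)
    · rw [← natCast_two_mul]; exact natCast_lt.2 (hP.lt i)
    · exact ((le_pr_right _ _).trans_lt (mem_lt h4)).le
    · exact ((le_pr_right _ _).trans_lt (mem_lt (hP.mem i))).le
  · rintro rfl
    have h1 : Mem (pr (i : (MMt τ)) (pr (u i) (pr (h i) (a i)))) W := (hW _).2 rfl
    have h2 : pr (u i) (pr (h i) (a i)) ≤ W := ((le_pr_right _ _).trans_lt (mem_lt h1)).le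
    have h3 : Mem (pr (i : (MMt τ)) ((j i : ℕ) : (MMt τ))) E' := (hE' i _).2 rfl
    refine ⟨pr (u i) (pr (h i) (a i)), h2, u i, (le_pr_left _ _).trans h2, h i,
      ((le_pr_left _ _).trans (le_pr_right _ _)).trans h2, a i,
      ((le_pr_right _ _).trans (le_pr_right _ _)).trans h2, ((j i : ℕ) : (MMt τ)), ?_, h1, rfl, h3,
      hP.mem i⟩
    exact ((le_pr_right _ _).trans_lt (mem_lt h3)).le

theorem cnd_iff (hP : IsProc φ y k j u h a p)
    (hE : ∀ (i : ℕ) (z : MMt τ), Mem (pr (i : MMt τ) z) E ↔ z = k i)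
    (hE' : ∀ (i : ℕ) (z : MMt τ), Mem (pr (i : MMt τ) z) E' ↔ z = j i) {W : (MMt τ)} {i : ℕ}
    (hW : ∀ i' : ℕ, i' < i → ∀ b : (MMt τ), Mem (pr (i' : (MMt τ)) b) W ↔ b = pr (u i') (pr (h i') (a i')))
    (b : (MMt τ)) : Cnd φ y E E' W (i : (MMt τ)) b ↔ PP φ y (k i) {q | ∃ i', i' < i ∧ q = p i'} b := by
  constructor
  · rintro ⟨k', _, u', _, h', _, a', _, h1, h2, h3, h4⟩
    rw [hE] at h1
    rw [h1] at h3
    refine ⟨u', h', a', h2, h3, ?_⟩
    rintro q ⟨i', hi', rfl⟩ hq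
    exact h4 (i' : (MMt τ)) (natCast_lt.2 hi') (lit (p i')) (mem_lt hq).le
      ((lam_iff hP hE' (hW i' hi') _).2 rfl) hq
  · rintro ⟨u', h', a', rfl, h3, h4⟩
    have h1 : Mem (pr (i : (MMt τ)) ((k i : ℕ) : (MMt τ))) E := (hE i _).2 rfl
    refine ⟨((k i : ℕ) : (MMt τ)), ((le_pr_right _ _).trans_lt (mem_lt h1)).le, u',
      le_pr_left _ _, h', (le_pr_left _ _).trans (le_pr_right _ _), a',
      (le_pr_right _ _).trans (le_pr_right _ _), h1, rfl, h3, ?_⟩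
    intro i' hi' z _ hz hzu
    obtain ⟨i'', hi'', rfl⟩ := lt_natCast_iff.1 hi'
    have := (lam_iff hP hE' (hW i'' hi'') z).1 hz
    rw [this] at hzu
    exact h4 (p i'') ⟨i'', hi'', rfl⟩ hzu

theorem proc_pp (hP : IsProc φ y k j u h a p) (i : ℕ) :
    PP φ y (k i) {q | ∃ i', i' < i ∧ q = p i'} (pr (u i) (pr (h i) (a i))) := by
  refine ⟨u i, h i, a i, rfl, hP.dat i, ?_⟩
  rintro q ⟨i', hi', rfl⟩
  exact hP.avoid i i' hi'

theorem qrun_exists (hP : IsProc φ y k j u h a p)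
    (hE : ∀ (i : ℕ) (z : MMt τ), Mem (pr (i : MMt τ) z) E ↔ z = k i)
    (hE' : ∀ (i : ℕ) (z : MMt τ), Mem (pr (i : MMt τ) z) E' ↔ z = j i) (n : ℕ) :
    ∃ W, QRun φ y E E' (n : (MMt τ)) W := by
  classical
  obtain ⟨W, hW⟩ := exists_code_finset
    ((Finset.range n).image fun i : ℕ => pr (i : (MMt τ)) (pr (u i) (pr (h i) (a i))))
  have hW' : ∀ i : ℕ, i < n → ∀ b : (MMt τ), Mem (pr (i : (MMt τ)) b) W ↔
      b = pr (u i) (pr (h i) (a i)) := by
    intro i hi b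
    rw [hW, Finset.mem_image]
    constructor
    · rintro ⟨i', _, h2⟩
      obtain ⟨h3, h4⟩ := pr_inj.1 h2
      rw [natCast_inj.1 h3] at h4
      exact h4.symm
    · rintro rfl
      exact ⟨i, Finset.mem_range.2 hi, rfl⟩
  refine ⟨W, fun i hi => ?_⟩
  obtain ⟨i, hi', rfl⟩ := lt_natCast_iff.1 hi
  have hc := cnd_iff hP hE hE' (W := W) (i := i) (fun i' h' => hW' i' (h'.trans hi'))
  have h1 : Mem (pr (i : (MMt τ)) (pr (u i) (pr (h i) (a i)))) W := (hW' i hi' _).2 rfl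
  refine ⟨⟨_, ((le_pr_right _ _).trans_lt (mem_lt h1)).le, h1⟩, fun b _ hb => ?_⟩
  rw [hW' i hi'] at hb
  subst hb
  refine ⟨(hc _).2 (proc_pp hP i), fun b' hb' hc' => ?_⟩
  exact absurd (hP.least i b' ((hc _).1 hc')) (not_le.2 hb')

theorem qrun_unique (hP : IsProc φ y k j u h a p)
    (hE : ∀ (i : ℕ) (z : MMt τ), Mem (pr (i : MMt τ) z) E ↔ z = k i)
    (hE' : ∀ (i : ℕ) (z : MMt τ), Mem (pr (i : MMt τ) z) E' ↔ z = j i) {n : ℕ} {W : (MMt τ)}
    (hR : QRun φ y E E' (n : (MMt τ)) W) (i : ℕ) (hi : i < n) (b : (MMt τ)) :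
    Mem (pr (i : (MMt τ)) b) W ↔ b = pr (u i) (pr (h i) (a i)) := by
  induction i using Nat.strong_induction_on generalizing b with
  | _ i ih =>
    have hc := cnd_iff hP hE hE' (W := W) (i := i) (fun i' h' => ih i' h' (h'.trans hi))
    obtain ⟨⟨b0, hb0, hm0⟩, h2⟩ := hR (i : (MMt τ)) (natCast_lt.2 hi)
    have key : ∀ b : (MMt τ), Mem (pr (i : (MMt τ)) b) W → b = pr (u i) (pr (h i) (a i)) := by
      intro b hb
      obtain ⟨h3, h4⟩ := h2 b ((le_pr_right _ _).trans_lt (mem_lt hb)).le hb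
      refine le_antisymm ?_ (hP.least i b ((hc b).1 h3))
      by_contra hcon
      exact h4 _ (not_le.1 hcon) ((hc _).2 (proc_pp hP i))
    refine ⟨key b, ?_⟩
    intro hb
    rw [hb, ← key b0 hm0]
    exact hm0

theorem proc_bdd (hSC : SCStmt τ) (hCode : CodeStmt τ) (hφ : IsDelta0 φ)
    (hP : IsProc φ y k j u h a p) : ∃ β : (MMt τ), ∀ i, lit (p i) ≤ β := by
  obtain ⟨E, hE⟩ := hCode.2.1 k
  obtain ⟨E', hE'⟩ := hCode.2.1 j
  obtain ⟨β, hβ⟩ := hSC (fun v => QRun φ y E E' (v 0) (v 1))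
    (qrun_delta0 hφ y E E' (IsTerm.var 0) (IsTerm.var 1)) ((aat τ) 0)
  refine ⟨β, fun i => ?_⟩
  obtain ⟨W, hW, hR⟩ := hβ ((i + 1 : ℕ) : (MMt τ)) (infl_aa 0 _).le (qrun_exists hP hE hE' (i + 1))
  have h1 : Mem (pr (i : (MMt τ)) (pr (u i) (pr (h i) (a i)))) W :=
    (qrun_unique hP hE hE' hR i (Nat.lt_succ_self i) _).2 rfl
  have h2 : lit (p i) ≤ h i := ((le_pr_right _ _).trans_lt (mem_lt (hP.mem i))).le
  have h3 : h i ≤ pr (i : (MMt τ)) (pr (u i) (pr (h i) (a i))) :=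
    ((le_pr_left _ _).trans (le_pr_right _ _)).trans (le_pr_right _ _)
  exact h2.trans (h3.trans ((mem_lt h1).le.trans hW))

end Proc

/-- Members of `QY` have data. -/
theorem qdat_of_qy {φ : (Fin 5 → MMt τ) → Prop} {k : ℕ} {y : (MMt τ)} {q : Finset ((MMt τ) × Bool)}
    (hq : q ∈ QY τ φ k y) : ∃ u h a, Rep u q ∧ QDat φ y k u h a := by
  classical
  obtain ⟨α, r, r', t, t', u, h1, h2, h3, h4, h5, h6, h7, h8, h9⟩ := hq
  obtain ⟨R, hR, hRc⟩ := (H75.crd_iff r k).1 h1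
  obtain ⟨R', hR', hRc'⟩ := (H75.crd_iff r' k).1 h2
  have huni : ∀ x, Mem x u ↔ Mem x r ∨ Mem x r' := by
    intro x
    constructor
    · intro hx
      exact (h8 x ((mem_lt hx).le.trans ((le_add_right' u r).trans (le_add_right' _ r')))).1 hx
    · rintro (hx | hx)
      · exact (h8 x ((mem_lt hx).le.trans ((le_add_left' r u).trans (le_add_right' _ r')))).2
          (Or.inl hx)
      · exact (h8 x ((mem_lt hx).le.trans (le_add_left' r' _))).2 (Or.inr hx)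
  have hqR : q = R ∪ R' := by
    apply Finset.coe_injective
    rw [h9, Finset.coe_union, hR, hR']
    ext p
    exact huni (lit p)
  have hcard : q.card ≤ 2 * k := by
    rw [hqR]
    have := Finset.card_union_le R R'
    omega
  let g := q.equivFin
  obtain ⟨h, hh⟩ := exists_code_finset
    (Finset.univ.image (fun p : q => pr (((g p : ℕ) : ℕ) : (MMt τ)) (lit p.1)))
  have hA : ∀ x, Mem x h ↔ ∃ p : q, x = pr (((g p : ℕ) : ℕ) : (MMt τ)) (lit p.1) := by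
    intro x
    rw [hh, Finset.mem_image]
    constructor
    · rintro ⟨p, _, hp⟩; exact ⟨p, hp.symm⟩
    · rintro ⟨p, hp⟩; exact ⟨p, Finset.mem_univ _, hp.symm⟩
  obtain ⟨N, hN⟩ : ∃ N : (MMt τ), α ≤ N ∧ r ≤ N ∧ r' ≤ N ∧ t ≤ N ∧ t' ≤ N := by
    refine ⟨max α (max r (max r' (max t t'))), ?_, ?_, ?_, ?_, ?_⟩ <;> simp
  refine ⟨u, h, N, h9, ⟨α, hN.1, r, hN.2.1, r', hN.2.2.1, t, hN.2.2.2.1, t', hN.2.2.2.2,
    h1, h2, h3, h4, h5, h6, h7, h8⟩, ?_, ?_⟩
  · intro x _ hx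
    obtain ⟨p, rfl⟩ := H75.lit_surj x
    have hp : p ∈ q := by
      have : p ∈ (q : Set ((MMt τ) × Bool)) := by rw [h9]; exact hx
      exact this
    refine ⟨((g ⟨p, hp⟩ : ℕ) : (MMt τ)), ?_, (hA _).2 ⟨⟨p, hp⟩, rfl⟩⟩
    rw [← natCast_two_mul]
    exact natCast_lt.2 (lt_of_lt_of_le (g ⟨p, hp⟩).2 hcard)
  · intro j _ x _ x' _ hx hx'
    obtain ⟨p, hp⟩ := (hA _).1 hx
    obtain ⟨p', hp'⟩ := (hA _).1 hx'
    obtain ⟨e1, e2⟩ := pr_inj.1 hp
    obtain ⟨e3, e4⟩ := pr_inj.1 hp'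
    have : p = p' := by
      apply g.injective
      apply Fin.ext
      exact natCast_inj.1 (e1.symm.trans e3)
    rw [e2, e4, this]

/-- Data come from members of `QY`. -/
theorem qy_of_qdat {φ : (Fin 5 → MMt τ) → Prop} {k : ℕ} {y u h a : (MMt τ)}
    (hd : QDat φ y k u h a) : ∃ q, Rep u q ∧ q ∈ QY τ φ k y := by
  classical
  obtain ⟨⟨α, _, r, _, r', _, t, _, t', _, h1, h2, h3, h4, h5, h6, h7, h8⟩, -⟩ := hd
  obtain ⟨R, hR, hRc⟩ := (H75.crd_iff r k).1 h1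
  obtain ⟨R', hR', hRc'⟩ := (H75.crd_iff r' k).1 h2
  have huni : ∀ x, Mem x u ↔ Mem x r ∨ Mem x r' := by
    intro x
    constructor
    · intro hx
      exact (h8 x ((mem_lt hx).le.trans ((le_add_right' u r).trans (le_add_right' _ r')))).1 hx
    · rintro (hx | hx)
      · exact (h8 x ((mem_lt hx).le.trans ((le_add_left' r u).trans (le_add_right' _ r')))).2
          (Or.inl hx)
      · exact (h8 x ((mem_lt hx).le.trans (le_add_left' r' _))).2 (Or.inr hx)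
  have hrep : Rep u (R ∪ R') := by
    unfold Rep
    rw [Finset.coe_union, hR, hR']
    ext p
    exact (huni (lit p)).symm
  exact ⟨R ∪ R', hrep, α, r, r', t, t', u, h1, h2, h3, h4, h5, h6, h7, h8, hrep⟩

theorem qb1 (hLK : LemmaK) (hQF : QFresh τ) (hQY : QYStmt τ) (hSC : SCStmt τ)
    (hCode : CodeStmt τ) : QBdd1 τ := by
  classical
  intro φ hφ c hc hcard hkill y hy
  have hs : ∀ k, ∃ s : Finset ((MMt τ) × Bool), (s : Set ((MMt τ) × Bool)) ⊆ c ∧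
      ∀ q ∈ QFam φ k, Conf (q : Set ((MMt τ) × Bool)) s := fun k =>
    hLK (MMt τ) (2 * k) (QFam φ k) (fun q hq => qfam_card hq) (hQF φ hφ k) c hcard (hkill k)
  choose s hs1 hs2 using hs
  have hs3 : ∀ k, ∀ q ∈ QY τ φ k y, Conf (q : Set ((MMt τ) × Bool)) (s k) := fun k q hq =>
    hs2 k q ((hQY φ hφ k q).2 ⟨y, hy, hq⟩)
  have hneg : ∀ (p : (MMt τ) × Bool) (β : (MMt τ)), lit p ≤ β → lit (p.1, !p.2) ≤ β + 1 := by
    rintro ⟨x, b⟩ β h
    cases b
    · rw [H75.lit_false] at h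
      rw [Bool.not_false, H75.lit_true]
      exact PAExp.add_le_add' _ _ 1 h
    · rw [H75.lit_true] at h
      rw [Bool.not_true, H75.lit_false]
      exact (le_add_right' _ 1).trans (h.trans (le_add_right' _ 1))
  -- it is enough to find a bounded set of literals meeting all members
  have hfin : ∀ (Λ : Set ((MMt τ) × Bool)) (β : (MMt τ)), (∀ p ∈ Λ, (p.1, !p.2) ∈ c ∧ lit p ≤ β) →
      (∀ k, ∀ q ∈ QY τ φ k y, ∃ p ∈ Λ, p ∈ q) →
      ∃ m : ℕ, ∀ k, ∀ q ∈ QY τ φ k y,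
        Conf (q : Set ((MMt τ) × Bool)) {p | p ∈ c ∧ lit p ≤ (aat τ) m} := by
    intro Λ β h1 h2
    obtain ⟨m, hm⟩ := exists_lt_aa (β + 1)
    refine ⟨m, fun k q hq => ?_⟩
    obtain ⟨p, hp, hpq⟩ := h2 k q hq
    exact ⟨p.1, p.2, hpq, (h1 p hp).1, (hneg p β (h1 p hp).2).trans hm.le⟩
  by_cases H : ∃ L : Finset ((MMt τ) × Bool), (∀ p ∈ L, (p.1, !p.2) ∈ c) ∧
      ∀ k, ∀ q ∈ QY τ φ k y, ∃ p ∈ L, p ∈ q
  · obtain ⟨L, hL1, hL2⟩ := H
    obtain ⟨β, hβ⟩ := (L.finite_toSet.image lit).bddAbove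
    exact hfin (L : Set ((MMt τ) × Bool)) β (fun p hp => ⟨hL1 p hp, hβ ⟨p, hp, rfl⟩⟩) hL2
  · push Not at H
    -- one step of the process
    have hstep : ∀ L : {L : Finset ((MMt τ) × Bool) // ∀ p ∈ L, (p.1, !p.2) ∈ c},
        ∃ (k j : ℕ) (u h a : (MMt τ)) (p : (MMt τ) × Bool),
          (∀ k' < k, ∀ q ∈ QY τ φ k' y, ∃ p ∈ L.1, p ∈ q) ∧ QDat φ y k u h a ∧
          (∀ p ∈ L.1, ¬ Mem (lit p) u) ∧
          (∀ b, PP φ y k (L.1 : Set ((MMt τ) × Bool)) b → pr u (pr h a) ≤ b) ∧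
          Mem (lit p) u ∧ (p.1, !p.2) ∈ s k ∧ j < 2 * k ∧ Mem (pr (j : (MMt τ)) (lit p)) h := by
      rintro ⟨L, hL⟩
      have hex : ∃ k, ∃ q ∈ QY τ φ k y, ∀ p ∈ L, p ∉ q := H L hL
      have hmin : ∀ k' < Nat.find hex, ∀ q ∈ QY τ φ k' y, ∃ p ∈ L, p ∈ q := by
        intro k' hk' q hq
        by_contra hcon
        push Not at hcon
        exact Nat.find_min hex hk' ⟨q, hq, hcon⟩
      obtain ⟨q, hq, hqL⟩ := Nat.find_spec hex
      generalize Nat.find hex = k at hmin hq hqL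
      obtain ⟨u0, h0, a0, hrep0, hd0⟩ := qdat_of_qy hq
      have hI : Int1 (PP φ y k (L : Set ((MMt τ) × Bool))) := by
        refine Int1.of_delta0 ?_
        have : IsDelta0 (fun v : Fin 1 → (MMt τ) => ∃ u, u ≤ v 0 ∧ ∃ h, h ≤ v 0 ∧ ∃ a, a ≤ v 0 ∧
            (v 0 = pr u (pr h a) ∧ QDat φ y k u h a ∧ ∀ p ∈ L, ¬ Mem (lit p) u)) := by
          refine IsDelta0.ex (IsTerm.var 0) ?_
          refine IsDelta0.ex (IsTerm.var 1) ?_
          refine IsDelta0.ex (IsTerm.var 2) ?_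
          -- 0 = a, 1 = h, 2 = u, 3 = b
          refine (IsDelta0.eq (IsTerm.var 3) (IsTerm.pr (IsTerm.var 2)
            (IsTerm.pr (IsTerm.var 1) (IsTerm.var 0)))).and ?_
          refine (qdat_delta0 hφ y (IsTerm.param _) (IsTerm.var 2) (IsTerm.var 1)
            (IsTerm.var 0)).and ?_
          exact IsDelta0.finsetAll L _ fun p _ =>
            (IsDelta0.mem (IsTerm.param (lit p)) (IsTerm.var 2)).not
        refine this.congr fun v => ?_
        constructor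
        · rintro ⟨u, h, a, h1, h2, h3⟩
          refine ⟨u, ?_, h, ?_, a, ?_, h1, h2, fun p hp => h3 p hp⟩
          · rw [h1]; exact le_pr_left _ _
          · rw [h1]; exact (le_pr_left _ _).trans (le_pr_right _ _)
          · rw [h1]; exact (le_pr_right _ _).trans (le_pr_right _ _)
        · rintro ⟨u, _, h, _, a, _, h1, h2, h3⟩
          exact ⟨u, h, a, h1, h2, fun p hp => h3 p hp⟩
      have hne : ∃ b, PP φ y k (L : Set ((MMt τ) × Bool)) b := by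
        refine ⟨_, u0, h0, a0, rfl, hd0, fun p hp hpu => ?_⟩
        have : p ∈ (q : Set ((MMt τ) × Bool)) := by rw [hrep0]; exact hpu
        exact hqL p hp this
      obtain ⟨b, ⟨u, h, a, rfl, hd, hav⟩, hleast⟩ := hI.least hne
      obtain ⟨q', hrep', hq'⟩ := qy_of_qdat hd
      obtain ⟨x, bb, hx1, hx2⟩ := hs3 k q' hq'
      have hxu : Mem (lit (x, bb)) u := by
        rw [hrep'] at hx1; exact hx1
      obtain ⟨j, hj, hjm⟩ := hd.2.1 (lit (x, bb)) (mem_lt hxu).le hxu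
      rw [← natCast_two_mul] at hj
      obtain ⟨j', hj', rfl⟩ := lt_natCast_iff.1 hj
      exact ⟨k, j', u, h, a, (x, bb), hmin, hd, fun p hp => hav p hp, hleast, hxu, hx2, hj', hjm⟩
    choose K J FU FH FA FP g1 g2 g3 g4 g5 g6 g7 g8 using hstep
    let nxt : {L : Finset ((MMt τ) × Bool) // ∀ p ∈ L, (p.1, !p.2) ∈ c} →
        {L : Finset ((MMt τ) × Bool) // ∀ p ∈ L, (p.1, !p.2) ∈ c} := fun L =>
      ⟨insert (FP L) L.1, fun p hp => by
        rcases Finset.mem_insert.1 hp with h | h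
        · rw [h]; exact hs1 _ (g6 L)
        · exact L.2 p h⟩
    let L : ℕ → {L : Finset ((MMt τ) × Bool) // ∀ p ∈ L, (p.1, !p.2) ∈ c} := fun n =>
      nxt^[n] ⟨∅, fun p hp => absurd hp (Finset.notMem_empty p)⟩
    have hL0 : (L 0).1 = ∅ := rfl
    have hLs : ∀ n, (L (n + 1)).1 = insert (FP (L n)) (L n).1 := by
      intro n
      have : L (n + 1) = nxt (L n) := by
        simp only [L]; rw [Function.iterate_succ_apply']
      rw [this]
    have hmem : ∀ i q, q ∈ (L i).1 ↔ ∃ i', i' < i ∧ q = FP (L i') := by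
      intro i
      induction i with
      | zero => intro q; rw [hL0]; simp
      | succ i ih =>
        intro q
        rw [hLs, Finset.mem_insert, ih]
        constructor
        · rintro (h | ⟨i', hi', h⟩)
          · exact ⟨i, Nat.lt_succ_self i, h⟩
          · exact ⟨i', hi'.trans (Nat.lt_succ_self i), h⟩
        · rintro ⟨i', hi', h⟩
          rcases Nat.lt_succ_iff_lt_or_eq.1 hi' with h' | h'
          · exact Or.inr ⟨i', h', h⟩
          · left; rw [h, h']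
    have hset : ∀ i, ((L i).1 : Set ((MMt τ) × Bool)) = {q | ∃ i', i' < i ∧ q = FP (L i')} := by
      intro i; ext q; exact hmem i q
    have hproc : IsProc φ y (fun i => K (L i)) (fun i => J (L i)) (fun i => FU (L i))
        (fun i => FH (L i)) (fun i => FA (L i)) (fun i => FP (L i)) := by
      refine ⟨fun i => g2 (L i), fun i i' hi' => ?_, fun i b hb => ?_, fun i => g7 (L i),
        fun i => g8 (L i)⟩
      · exact g3 (L i) _ ((hmem i _).2 ⟨i', hi', rfl⟩)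
      · refine g4 (L i) b ?_
        rw [hset]; exact hb
    obtain ⟨β, hβ⟩ := proc_bdd hSC hCode hφ hproc
    refine hfin {q | ∃ i, q = FP (L i)} β ?_ ?_
    · rintro q ⟨i, rfl⟩
      exact ⟨hs1 _ (g6 (L i)), hβ i⟩
    · intro k
      by_contra hcon
      push Not at hcon
      obtain ⟨q, hq, hqn⟩ := hcon
      have hK : ∀ i, K (L i) ≤ k := by
        intro i
        by_contra hlt
        obtain ⟨p, hp, hpq⟩ := g1 (L i) k (not_le.1 hlt) q hq
        obtain ⟨i', _, h'⟩ := (hmem i p).1 hp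
        exact hqn p ⟨i', h'⟩ hpq
      have hinj : Function.Injective fun i => ((FP (L i)).1, !(FP (L i)).2) := by
        have hne : ∀ i i', i' < i → FP (L i) ≠ FP (L i') := by
          intro i i' hi' he
          exact g3 (L i) _ ((hmem i _).2 ⟨i', hi', rfl⟩) (he ▸ g5 (L i))
        intro i i' he
        have he' : FP (L i) = FP (L i') := by
          have h1 := congrArg Prod.fst he
          have h2 := congrArg Prod.snd he
          simp only [Bool.not_inj_iff] at h2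
          exact Prod.ext h1 h2
        rcases lt_trichotomy i i' with h | h | h
        · exact absurd he'.symm (hne i' i h)
        · exact h
        · exact absurd he' (hne i i' h)
      have hfinite : (Set.range fun i => ((FP (L i)).1, !(FP (L i)).2)).Finite := by
        refine Set.Finite.subset ((Finset.range (k + 1)).biUnion s).finite_toSet ?_
        rintro _ ⟨i, rfl⟩
        rw [Finset.mem_coe, Finset.mem_biUnion]
        exact ⟨K (L i), Finset.mem_range.2 (Nat.lt_succ_of_le (hK i)), g6 (L i)⟩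
      exact Set.infinite_range_of_injective hinj hfinite

end Pool.Agent.BSN.H50
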