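import Pool.Agent.Helper26_BSN.Rep

/-!
# UW: unbeatable conditions compute the target
-/

namespace Pool.Agent.BSN.H50

open Filter Cardinal Pool.Agent.BSig Pool.Agent.BSN

variable {τ : Tower}

theorem not_mem_zero (x : (MMt τ)) : ¬ Mem x (0 : (MMt τ)) := by
  intro h
  exact absurd (mem_lt h) (not_lt.2 (PAExp.zero_le' x))

theorem fam_mono (hMono : MonoStmt τ) {φ : (Fin 5 → (MMt τ)) → Prop} (hφ : IsDelta0 φ) {k k' : ℕ}
    (h : k ≤ k') (t : (MMt τ)) : Fam φ k t ⊆ Fam φ k' t := by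
  rintro S ⟨h1, h2, F, hF, h3⟩
  refine ⟨h1.trans h, h2, F, hF, fun m => ?_⟩
  obtain ⟨α, hα⟩ := h3 m
  exact ⟨α, (hMono φ hφ).1 α α k k' m m F t le_rfl (natCast_le.2 h) le_rfl hα⟩

theorem forces_mono (hMono : MonoStmt τ) {φ : (Fin 5 → (MMt τ)) → Prop} (hφ : IsDelta0 φ) {k k' : ℕ}
    (h : k ≤ k') {R : Finset ((MMt τ) × Bool)} {t : (MMt τ)} (hF : Forces φ k R t) : Forces φ k' R t := by
  intro s hs hR
  obtain ⟨F, hF1, hF2⟩ := hF s hs hR
  exact ⟨F, fam_mono hMono hφ h t hF1, hF2⟩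

theorem qfam_card {φ : (Fin 5 → (MMt τ)) → Prop} {k : ℕ} {q : Finset ((MMt τ) × Bool)}
    (hq : q ∈ QFam φ k) : q.card ≤ 2 * k := by
  classical
  obtain ⟨R, R', t, t', h1, h2, -, -, -, -, -, h⟩ := hq
  have : q = R ∪ R' := by
    apply Finset.coe_injective
    rw [h, Finset.coe_union]
  rw [this]
  have := Finset.card_union_le R R'
  omega

/-- A countable set of literals bounded by `(aat τ) m` is the set of values of a coded sequence. -/
theorem exists_code_countable (hCode : CodeStmt τ) (U : Set ((MMt τ) × Bool)) (hU : U.Countable)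
    (m : ℕ) (hm : ∀ p ∈ U, lit p ≤ (aat τ) m) :
    ∃ E : (MMt τ), (∀ (i : ℕ) (z : (MMt τ)), Mem (pr (i : (MMt τ)) z) E → ∃ p ∈ U, z = lit p) ∧
      ∀ p ∈ U, ∃ i : ℕ, Mem (pr (i : (MMt τ)) (lit p)) E := by
  rcases U.eq_empty_or_nonempty with rfl | hne
  · exact ⟨0, fun i z h => absurd h (not_mem_zero _), fun p hp => absurd hp (Set.notMem_empty p)⟩
  · obtain ⟨f, hf⟩ := hU.exists_eq_range hne
    obtain ⟨E, hE⟩ := hCode.2.2 (fun i => lit (f i)) ((aat τ) m) (fun i => hm _ (by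
      rw [hf]; exact Set.mem_range_self i))
    refine ⟨E, fun i z h => ⟨f i, by rw [hf]; exact Set.mem_range_self i, (hE i z).1 h⟩, ?_⟩
    intro p hp
    rw [hf] at hp
    obtain ⟨i, rfl⟩ := hp
    exact ⟨i, (hE i _).2 rfl⟩

/-- The set coded by `r` is not in conflict with the first `y` elements of the sequence `E`. -/
def NC (E r y : (MMt τ)) : Prop := ∀ i, i < y → ∀ x, x ≤ r →
  ((Mem (2 * x + 1) r → ¬ Mem (pr i (2 * x)) E) ∧ (Mem (2 * x) r → ¬ Mem (pr i (2 * x + 1)) E))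

theorem nc_delta0 {n : ℕ} {r y : (Fin n → MMt τ) → MMt τ} (E : MMt τ) (hr : IsTerm r)
    (hy : IsTerm y) : IsDelta0 (fun v => NC E (r v) (y v)) := by
  refine IsDelta0.allLt hy ?_
  refine IsDelta0.all hr.tail ?_
  refine IsDelta0.and ?_ ?_
  · refine (IsDelta0.mem ((IsTerm.var 0).twomul.addc 1) hr.tail.tail).imp ?_
    exact (IsDelta0.mem (IsTerm.pr (IsTerm.var 1) (IsTerm.var 0).twomul) (IsTerm.param E)).not
  · refine (IsDelta0.mem (IsTerm.var 0).twomul hr.tail.tail).imp ?_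
    exact (IsDelta0.mem (IsTerm.pr (IsTerm.var 1) ((IsTerm.var 0).twomul.addc 1))
      (IsTerm.param E)).not

/-- Any false fact is contradicted by a true one. -/
theorem exists_contra {A : Set (MMt τ)} {t : (MMt τ)} (h : ¬ Fact A t) :
    ∃ t', Fact A t' ∧ Contra t t' := by
  classical
  obtain ⟨⟨K, b⟩, rfl⟩ := H75.lit_surj t
  cases b
  · rw [H75.lit_false] at h ⊢
    have h1 : ¬ decode K ⊆ sgn A 0 := by
      intro h2
      exact h ⟨K, 0, by rw [add_zero], Or.inl rfl, h2⟩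
    obtain ⟨z, hz1, hz2⟩ := Set.not_subset.1 h1
    have hzA : z ∈ A := by
      by_contra hc
      exact hz2 (Or.inr ⟨rfl, hc⟩)
    obtain ⟨K', hK'⟩ := exists_code_finset ({z} : Finset (MMt τ))
    have hzK' : Mem z K' := (hK' z).2 (Finset.mem_singleton_self z)
    refine ⟨2 * K' + 1, ⟨K', 1, rfl, Or.inr rfl, ?_⟩, K, H75.le_two_mul K, K', ?_,
      Or.inl ⟨rfl, rfl⟩, z, (mem_lt hz1).le, hz1, hzK'⟩
    · intro x hx
      have : x = z := Finset.mem_singleton.1 ((hK' x).1 hx)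
      rw [this]; exact Or.inl ⟨rfl, hzA⟩
    · exact (H75.le_two_mul K').trans (le_add_right' _ 1)
  · rw [H75.lit_true] at h ⊢
    have h1 : ¬ decode K ⊆ sgn A 1 := by
      intro h2
      exact h ⟨K, 1, rfl, Or.inr rfl, h2⟩
    obtain ⟨z, hz1, hz2⟩ := Set.not_subset.1 h1
    have hzA : z ∉ A := by
      intro hc
      exact hz2 (Or.inl ⟨rfl, hc⟩)
    obtain ⟨K', hK'⟩ := exists_code_finset ({z} : Finset (MMt τ))
    have hzK' : Mem z K' := (hK' z).2 (Finset.mem_singleton_self z)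
    refine ⟨2 * K', ⟨K', 0, by rw [add_zero], Or.inl rfl, ?_⟩, K,
      (H75.le_two_mul K).trans (le_add_right' _ 1), K', H75.le_two_mul K',
      Or.inr ⟨rfl, rfl⟩, z, (mem_lt hz1).le, hz1, hzK'⟩
    intro x hx
    have : x = z := Finset.mem_singleton.1 ((hK' x).1 hx)
    rw [this]; exact Or.inr ⟨rfl, hzA⟩

theorem uw (hSnd : SoundStmt τ) (hQB : QBdd τ) (hQF : QFresh τ) (hLK : LemmaK)
    (hCode : CodeStmt τ) (hMono : MonoStmt τ) (hSci : SciStmt τ) (hFrcS : FrcStmt τ) :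
    UnbeatW τ := by
  classical
  intro φ hφ A c hUnb
  obtain ⟨hSnd1, hSnd2, hSnd3⟩ := hSnd φ hφ A c hUnb
  obtain ⟨hc, hcard, -, -⟩ := hUnb
  obtain ⟨m, hm⟩ := hQB φ hφ c hc hcard hSnd3
  have hc0 : {p | p ∈ c ∧ lit p ≤ (aat τ) m} ⊆ c := fun p hp => hp.1
  have hcard0 : #({p | p ∈ c ∧ lit p ≤ (aat τ) m} : Set ((MMt τ) × Bool)) < continuum :=
    (Cardinal.mk_le_mk_of_subset hc0).trans_lt hcard
  have hs : ∀ k, ∃ s : Finset ((MMt τ) × Bool), (s : Set ((MMt τ) × Bool)) ⊆ {p | p ∈ c ∧ lit p ≤ (aat τ) m} ∧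
      ∀ q ∈ QFam φ k, Conf (q : Set ((MMt τ) × Bool)) s := fun k =>
    hLK (MMt τ) (2 * k) (QFam φ k) (fun q hq => qfam_card hq) (hQF φ hφ k) _ hcard0 (hm k)
  choose s hs1 hs2 using hs
  let U : Set ((MMt τ) × Bool) := ⋃ k, (s k : Set ((MMt τ) × Bool))
  have hUc : ∀ p ∈ U, p ∈ c ∧ lit p ≤ (aat τ) m := by
    intro p hp
    obtain ⟨k, hk⟩ := Set.mem_iUnion.1 hp
    exact hs1 k hk
  obtain ⟨E, hE1, hE2⟩ := exists_code_countable hCode U
    (Set.countable_iUnion fun k => (s k).countable_toSet) m (fun p hp => (hUc p hp).2)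
  let Ψ : (MMt τ) → (MMt τ) → (MMt τ) → Prop := fun n y t => ∃ r, ∃ α,
    (Crd r n ∧ ¬ Cfl r r ∧ NC E r y ∧ Frc φ α n y r t)
  have hΨ : Sig1 (fun v : Fin 3 → (MMt τ) => Ψ (v 0) (v 1) (v 2)) := by
    refine Sig1.ex ?_
    refine Sig1.ex ?_
    refine Sig1.of_delta0 ?_
    -- 0 = α, 1 = r, 2 = n, 3 = y, 4 = t
    refine (IsDelta0.crd (IsTerm.var 1) (IsTerm.var 2)).and ?_
    refine (IsDelta0.cfl (IsTerm.var 1) (IsTerm.var 1)).not.and ?_
    refine (nc_delta0 E (IsTerm.var 1) (IsTerm.var 3)).and ?_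
    exact IsDelta0.frc hφ (IsTerm.var 0) (IsTerm.var 2) (IsTerm.var 3) (IsTerm.var 1)
      (IsTerm.var 4)
  refine ⟨fun v => Ψ (v 0) (v 1) (v 2), hΨ.isSigma, fun t => ?_⟩
  constructor
  · intro ht
    obtain ⟨k, R, hRc, hF⟩ := hSnd2 t ht
    obtain ⟨r, hr⟩ := H75.rep_exists R
    have hF' : Forces φ (max k R.card) R t := forces_mono hMono hφ (le_max_left _ _) hF
    have h1 := (hFrcS φ hφ (max k R.card) R r t hr).2 hF'
    obtain ⟨y, α, hy, hFrc⟩ := (hSci (fun v => Frc φ (v 1) ((max k R.card : ℕ) : (MMt τ)) (v 0) r t)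
      (IsDelta0.frc hφ (IsTerm.var 1) (IsTerm.param _) (IsTerm.var 0) (IsTerm.param r)
        (IsTerm.param t))
      (fun m m' α α' h1 h2 h3 => (hMono φ hφ).2 α α' _ _ m m' r t h2 le_rfl h1 h3)).1 h1
    have hnc : ∀ j : ℕ, NC E r (j : (MMt τ)) := by
      intro j i hi x hx
      obtain ⟨i', hi', rfl⟩ := lt_natCast_iff.1 hi
      constructor
      · intro h1 h2
        obtain ⟨p, hp, hp2⟩ := hE1 i' _ h2
        have e : p = (x, false) := by
          apply H75.lit_inj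
          rw [← hp2, H75.lit_false]
        have h3 : (x, true) ∈ (R : Set ((MMt τ) × Bool)) := by
          rw [hr]; change Mem _ _; rw [H75.lit_true]; exact h1
        refine hc ⟨x, true, hRc h3, ?_⟩
        rw [Bool.not_true, ← e]; exact (hUc p hp).1
      · intro h1 h2
        obtain ⟨p, hp, hp2⟩ := hE1 i' _ h2
        have e : p = (x, true) := by
          apply H75.lit_inj
          rw [← hp2, H75.lit_true]
        have h3 : (x, false) ∈ (R : Set ((MMt τ) × Bool)) := by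
          rw [hr]; change Mem _ _; rw [H75.lit_false]; exact h1
        refine hc ⟨x, false, hRc h3, ?_⟩
        rw [Bool.not_false, ← e]; exact (hUc p hp).1
    obtain ⟨y', hy', hnc'⟩ := (Int1.of_delta0 (P := fun y => NC E r y)
      (nc_delta0 E (IsTerm.param r) (IsTerm.var 0))).overspill hnc
    refine ⟨max k R.card, min y y', fun n => lt_min (hy n) (hy' n), r, α, ?_, ?_,
      hnc' _ (min_le_right _ _), ?_⟩
    · exact (H75.crd_iff r _).2 ⟨R, hr, le_max_right _ _⟩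
    · intro h
      rw [H75.cfl_iff, ← hr] at h
      obtain ⟨x, b, h1, h2⟩ := h
      exact hc ⟨x, b, hRc h1, hRc h2⟩
    · exact (hMono φ hφ).2 α α _ _ y _ r t le_rfl le_rfl (min_le_left _ _) hFrc
  · rintro ⟨n, y, hy, r, α, hcrd, hcfl, hnc, hFrc⟩
    obtain ⟨R, hr, hRn⟩ := (H75.crd_iff r n).1 hcrd
    have hRcons : Consis (R : Set ((MMt τ) × Bool)) := by
      intro h
      rw [hr] at h
      exact hcfl ((H75.cfl_iff r r).2 h)
    have hForc : Forces φ n R t := (hFrcS φ hφ n R r t hr).1 fun j =>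
      ⟨α, (hMono φ hφ).2 α α _ _ y _ r t le_rfl le_rfl (hy j).le hFrc⟩
    have hRU : ∀ x b, (x, b) ∈ (R : Set ((MMt τ) × Bool)) → (x, !b) ∉ U := by
      intro x b hx hxU
      obtain ⟨i, hi⟩ := hE2 _ hxU
      rw [hr] at hx
      change Mem _ _ at hx
      cases b
      · rw [H75.lit_false] at hx
        rw [Bool.not_false, H75.lit_true] at hi
        exact (hnc i (hy i) x ((H75.le_two_mul x).trans (mem_lt hx).le)).2 hx hi
      · rw [H75.lit_true] at hx
        rw [Bool.not_true, H75.lit_false] at hi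
        exact (hnc i (hy i) x (((H75.le_two_mul x).trans (le_add_right' _ 1)).trans
          (mem_lt hx).le)).1 hx hi
    by_contra hnF
    obtain ⟨t', ht', hct⟩ := exists_contra hnF
    obtain ⟨k', R', hR'c, hForc'⟩ := hSnd2 t' ht'
    let N : ℕ := max n (max k' R'.card)
    have hq : (R ∪ R' : Finset ((MMt τ) × Bool)) ∈ QFam φ N := by
      refine ⟨R, R', t, t', hRn.trans (le_max_left _ _), ?_, hRcons, ?_,
        forces_mono hMono hφ (le_max_left _ _) hForc,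
        forces_mono hMono hφ ((le_max_left _ _).trans (le_max_right _ _)) hForc', hct,
        Finset.coe_union _ _⟩
      · exact (le_max_right _ _).trans (le_max_right _ _)
      · rintro ⟨x, b, h1, h2⟩
        exact hc ⟨x, b, hR'c h1, hR'c h2⟩
    obtain ⟨x, b, h1, h2⟩ := hs2 N _ hq
    have hxU : (x, !b) ∈ U := Set.mem_iUnion.2 ⟨N, h2⟩
    rw [Finset.coe_union] at h1
    rcases h1 with h1 | h1
    · exact hRU x b h1 hxU
    · exact hc ⟨x, b, hR'c h1, (hUc _ hxU).1⟩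

end Pool.Agent.BSN.H50
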